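import Mathlib

set_option autoImplicit false

namespace Pool.Agent.Results.MP_bedf46_an.OtherAttractor

/-- configurations on two lines -/
abbrev Cfg := ℤ × ℤˣ → Bool

/-- majority of three bits -/
def maj (a b c : Bool) : Bool := (a && b) || (a && c) || (b && c)

/-- the 2-line voting -/
def F (y : Cfg) : Cfg := fun v => maj (y (v.1 - 2 * v.2, v.2)) (y (v.1 - v.2, v.2)) (y (v.1, -v.2))

/-- finite perturbations (same bunch) -/
def Near (s s' : Cfg) : Prop := {v | s v ≠ s' v}.Finite

/-- attractors -/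
def Attractor (s : Cfg) : Prop :=
  ∀ s', Near s s' → {p : (ℤ × ℤˣ) × ℕ | F^[p.2] s p.1 ≠ F^[p.2] s' p.1}.Finite

theorem loc (t : ℕ) (s s' : Cfg) (lo hi : ℤ) (h : ∀ i j, lo ≤ i → i ≤ hi → s (i, j) = s' (i, j)) :
    ∀ i j, lo + 2 * t ≤ i → i ≤ hi - 2 * t → F^[t] s (i, j) = F^[t] s' (i, j) := by
  induction t with
  | zero => intro i j h1 h2; exact h i j (by simpa using h1) (by simpa using h2)
  | succ t ih =>
    intro i j h1 h2
    push_cast at h1 h2
    simp only [Function.iterate_succ_apply', F]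
    rcases Int.units_eq_one_or j with rfl | rfl <;>
      rw [ih _ _ (by simp; omega) (by simp; omega), ih _ _ (by simp; omega) (by simp; omega),
        ih _ _ (by omega) (by omega)]

theorem const (t : ℕ) (b : Bool) : F^[t] (fun _ => b) = fun _ => b :=
  Function.iterate_fixed (funext fun _ => by cases b <;> rfl) t

/-- support bounds -/
def Sp (y : Cfg) (a b c d : ℤ) : Prop :=
  (∀ i, y (i, 1) = true → a ≤ i ∧ i ≤ b) ∧ ∀ i, y (i, -1) = true → c ≤ i ∧ i ≤ d

theorem step (y : Cfg) (a b c d e : ℤ) (h : Sp y a b c d) (h1 : d ≤ b + 1) (h2 : c - 1 ≤ a)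
    (he : e = 1 ∨ (e = 2 ∧ d ≤ a)) : Sp (F y) (a + e) (b + 1) (c - 1) (d - e) := by
  constructor <;> intro i hi <;>
    simp only [F, maj, Units.val_one, Units.val_neg, neg_neg, Bool.or_eq_true,
      Bool.and_eq_true] at hi <;> rcases hi with (⟨p, q⟩ | ⟨p, q⟩) | ⟨p, q⟩
  · have := h.1 _ p; have := h.1 _ q; omega
  · have := h.1 _ p; have := h.2 _ q; omega
  · have := h.1 _ p; have := h.2 _ q; omega
  · have := h.2 _ p; have := h.2 _ q; omega
  · have := h.2 _ p; have := h.1 _ q; omega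
  · have := h.2 _ p; have := h.1 _ q; omega

theorem die (y : Cfg) (R : ℕ) (h : Sp y (-R) R (-R) R) (v : ℤ × ℤˣ) :
    F^[2 * R + 1 + R] y v = false := by
  have p1 : ∀ t : ℕ, Sp (F^[t] y) (-R + t) (R + t) (-R - t) (R - t) := by
    intro t
    induction t with
    | zero => simpa using h
    | succ t ih =>
      rw [Function.iterate_succ_apply']
      have := step _ _ _ _ _ 1 ih (by omega) (by omega) (Or.inl rfl)
      push_cast
      rwa [add_assoc, add_assoc, sub_sub, sub_sub] at this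
  have p2 : ∀ t : ℕ, Sp (F^[t + R] y) (2 * t) (2 * R + t) (-(2 * R) - t) (-(2 * t)) := by
    intro t
    induction t with
    | zero =>
      have := p1 R
      refine ⟨fun i hi => ?_, fun i hi => ?_⟩
      · have := this.1 i (by simpa using hi); omega
      · have := this.2 i (by simpa using hi); omega
    | succ t ih =>
      rw [show t + 1 + R = (t + R) + 1 by ring, Function.iterate_succ_apply']
      have := step _ _ _ _ _ 2 ih (by omega) (by omega) (Or.inr ⟨rfl, by omega⟩)
      refine ⟨fun i hi => ?_, fun i hi => ?_⟩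
      · have := this.1 i hi; push_cast; omega
      · have := this.2 i hi; push_cast; omega
  obtain ⟨i, j⟩ := v
  by_contra hv
  rcases Int.units_eq_one_or j with rfl | rfl
  · have := (p2 (2 * R + 1)).1 i (by simpa using hv); push_cast at this; omega
  · have := (p2 (2 * R + 1)).2 i (by simpa using hv); push_cast at this; omega

open Classical in
/-- islands of ones on the intervals `[100^k, 2·100^k]` -/
noncomputable def s0 : Cfg := fun v => decide (∃ k : ℕ, 100 ^ k ≤ v.1 ∧ v.1 ≤ 2 * 100 ^ k)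

theorem big (k : ℕ) : (k : ℤ) < 100 ^ k := by exact_mod_cast Nat.lt_pow_self (by norm_num)

theorem attr : Attractor s0 := by
  intro s' hs
  obtain ⟨n, hn⟩ := (hs.image fun v => v.1.natAbs).bddAbove
  obtain ⟨R, hR⟩ : ∃ R : ℕ, R = 2 * 100 ^ n := ⟨_, rfl⟩
  have hR' : (R : ℤ) = 2 * 100 ^ n := by rw [hR]; push_cast; rfl
  have hb := big n
  have ag : ∀ (i : ℤ) j, (i < -R ∨ R < i) → s0 (i, j) = s' (i, j) := by
    intro i j hi
    by_contra h
    have : i.natAbs ≤ n := hn ⟨(i, j), h, rfl⟩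
    omega
  have z0 : ∀ (i : ℤ) j, (i < -R ∨ R < i) → i < 50 * R → s0 (i, j) = false := by
    intro i j h1 h2
    simp only [s0, decide_eq_false_iff_not]
    rintro ⟨k, a, b⟩
    have := pow_pos (show (0 : ℤ) < 100 by norm_num) k
    rcases le_or_gt k n with c | c
    · have := pow_le_pow_right₀ (show (1 : ℤ) ≤ 100 by norm_num) c
      omega
    · have := pow_le_pow_right₀ (show (1 : ℤ) ≤ 100 by norm_num) (Nat.succ_le_of_lt c)
      rw [pow_succ] at this
      omega
  have far : ∀ (t : ℕ) (i : ℤ) j, (i < -R - 2 * t ∨ R + 2 * t < i) →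
      F^[t] s0 (i, j) = F^[t] s' (i, j) := fun t i j h =>
    loc t s0 s' (i - 2 * t) (i + 2 * t) (fun i' j' a b => ag i' j' (by omega)) i j (by omega)
      (by omega)
  have near : ∀ y : Cfg, (∀ (i : ℤ) j, (i < -R ∨ R < i) → i < 50 * R → y (i, j) = false) →
      ∀ (i : ℤ) j, i ≤ 20 * R → F^[2 * R + 1 + R] y (i, j) = false := by
    intro y hy i j hi
    rw [loc _ y (fun v => y v && decide (v.1 ≤ R)) (i - 2 * (2 * R + 1 + R : ℕ))
      (i + 2 * (2 * R + 1 + R : ℕ)) (fun i' j' a b => ?_) i j (by omega) (by omega)]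
    · refine die _ R ⟨fun i hi => ?_, fun i hi => ?_⟩ _ <;>
        simp only [Bool.and_eq_true, decide_eq_true_eq] at hi <;>
        refine ⟨not_lt.1 fun c => ?_, hi.2⟩ <;>
        rw [hy _ _ (Or.inl c) (by omega)] at hi <;> simp at hi
    · by_cases c : i' ≤ R
      · simp [c]
      · rw [hy _ _ (Or.inr (not_le.1 c)) (by push_cast at b; omega)]; simp
  have fin : F^[2 * R + 1 + R] s0 = F^[2 * R + 1 + R] s' := by
    funext ⟨i, j⟩
    by_cases hi : i ≤ 20 * R
    · rw [near s0 z0 i j hi, near s' (fun i j a b => by rw [← ag i j a, z0 i j a b]) i j hi]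
    · exact far _ i j (by push_cast; omega)
  refine (((Set.finite_Icc (-(10 * R : ℤ)) (10 * R)).prod (Set.finite_univ (α := ℤˣ))).prod
    (Set.finite_Iio (2 * R + 1 + R))).subset ?_
  rintro ⟨⟨i, j⟩, t⟩ hp
  have ht : t < 2 * R + 1 + R := by
    by_contra c
    obtain ⟨u, rfl⟩ := Nat.exists_eq_add_of_le' (not_lt.1 c)
    exact hp (by simp only [Function.iterate_add_apply _ u, fin])
  have := mt (far t i j) hp
  exact ⟨⟨⟨by simp only; omega, by simp only; omega⟩, trivial⟩, ht⟩

theorem result : ∃ s : Cfg, Attractor s ∧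
    ∀ t : ℕ, ¬ Near (F^[t] s) (fun _ => false) ∧ ¬ Near (F^[t] s) (fun _ => true) := by
  refine ⟨s0, attr, fun t => ⟨fun h => ?_, fun h => ?_⟩⟩
  · obtain ⟨n, hn⟩ := (h.image fun v => v.1.natAbs).bddAbove
    have hb := big (n + 4 * t)
    have := loc t s0 (fun _ => true) (100 ^ (n + 4 * t)) (2 * 100 ^ (n + 4 * t))
      (fun i j a b => by simp only [s0, decide_eq_true_eq]; exact ⟨_, a, b⟩)
      (100 ^ (n + 4 * t) + 2 * t) 1 le_rfl (by push_cast at hb; omega)
    rw [const] at this
    have : (100 ^ (n + 4 * t) + 2 * t : ℤ).natAbs ≤ n :=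
      hn ⟨(_, 1), by simp only [Set.mem_setOf_eq, this]; simp, rfl⟩
    push_cast at hb; omega
  · obtain ⟨n, hn⟩ := (h.image fun v => v.1.natAbs).bddAbove
    have := loc t s0 (fun _ => false) (-n - 1 - 4 * t) 0
      (fun i j a b => by
        simp only [s0, decide_eq_false_iff_not]
        rintro ⟨k, c, -⟩
        have := pow_pos (show (0 : ℤ) < 100 by norm_num) k
        omega) (-n - 1 - 2 * t) 1 (by omega) (by omega)
    rw [const] at this
    have : (-n - 1 - 2 * t : ℤ).natAbs ≤ n :=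
      hn ⟨(_, 1), by simp only [Set.mem_setOf_eq, this]; simp, rfl⟩
    omega

end Pool.Agent.Results.MP_bedf46_an.OtherAttractor
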